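import Pool.Agent.MP_a88b1d_nt.H42.Spec

/-! Points of the projective lines over the residue fields of `pp` and `qq`. -/

open Polynomial

namespace Pool.Agent.MP_a88b1d_nt.H73

open Pool.Agent.MP_a88b1d_nt.H42

theorem red {m : A} {k : ℕ} (h0 : m ≠ 0) (hk : m.natDegree = k) (f : A) :
    ∃ x, x < 2 ^ k ∧ m ∣ f - ofN x := by
  have hm : m.Monic := by
    have h1 : m.leadingCoeff ≠ 0 := leadingCoeff_ne_zero.2 h0
    have h2 : ∀ c : ZMod 2, c ≠ 0 → c = 1 := by decide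
    exact h2 _ h1
  have h3 := degree_modByMonic_lt f hm
  rw [degree_eq_natDegree h0, hk] at h3
  obtain ⟨x, hx, e⟩ := exists_ofN h3
  refine ⟨x, hx, f /ₘ m, ?_⟩
  rw [e]
  linear_combination -(modByMonic_add_div f m)

theorem inj {m : A} {k x y : ℕ} (h0 : m ≠ 0) (hk : m.natDegree = k) (hx : x < 2 ^ k)
    (hy : y < 2 ^ k) (h : m ∣ ofN x - ofN y) : x = y := by
  refine ofN_injective (sub_eq_zero.1 (eq_zero_of_dvd_of_degree_lt h ?_))
  rw [degree_eq_natDegree h0, hk]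
  exact (degree_sub_le _ _).trans_lt (max_lt (degree_ofN_lt.2 hx) (degree_ofN_lt.2 hy))

variable {m c d c' d' : A} {N x x' : ℕ}

theorem ex1 {k : ℕ} (hm : Irreducible m) (hk : m.natDegree = k) (c d : A) :
    ∃ x, IsPt1 m (2 ^ k) x c d := by
  by_cases h : m ∣ c
  · exact ⟨_, Or.inl ⟨rfl, h⟩⟩
  · obtain ⟨u, v, e⟩ := hm.coprime_iff_not_dvd.2 h
    obtain ⟨x, hx, r, hr⟩ := red hm.ne_zero hk (v * d)
    exact ⟨x, Or.inr ⟨hx, u * d + c * r, by linear_combination c * hr - d * e⟩⟩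

theorem le1 (h : IsPt1 m N x c d) : x ≤ N := by
  rcases h with h | h
  · exact h.1.le
  · exact h.1.le

theorem uniq1 {k : ℕ} (hm : Irreducible m) (hk : m.natDegree = k) (hc : IsCoprime c d)
    (h : IsPt1 m (2 ^ k) x c d) (h' : IsPt1 m (2 ^ k) x' c d) : x = x' := by
  have key : ∀ y, m ∣ c → ¬ m ∣ d - c * ofN y := fun y h1 h2 =>
    hm.not_isUnit (hc.isUnit_of_dvd' h1 (by simpa using dvd_add h2 (h1.mul_right (ofN y))))
  rcases h with h | h <;> rcases h' with h' | h'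
  · rw [h.1, h'.1]
  · exact (key _ h.2 h'.2).elim
  · exact (key _ h'.2 h.2).elim
  · have h3 : m ∣ c * (ofN x - ofN x') := by
      have := dvd_sub h'.2 h.2
      rwa [show d - c * ofN x' - (d - c * ofN x) = c * (ofN x - ofN x') by ring] at this
    rcases hm.prime.dvd_or_dvd h3 with h4 | h4
    · exact (key _ h4 h.2).elim
    · exact inj hm.ne_zero hk h.1 h'.1 h4

theorem orb1 (h : IsPt1 m N x c d) (h' : IsPt1 m N x c' d') : m ∣ c' * d - d' * c := by
  rcases h with h | h <;> rcases h' with h' | h'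
  · exact dvd_sub (h'.2.mul_right _) (h.2.mul_left _)
  · exact (h'.1.ne h.1).elim
  · exact (h.1.ne h'.1).elim
  · have := dvd_sub (h.2.mul_left c') (h'.2.mul_left c)
    rwa [show c' * (d - c * ofN x) - c * (d' - c' * ofN x) = c' * d - d' * c by ring] at this

theorem left1 {a b u v : A} (hu : m ∣ u) (h : IsPt1 m N x c d) :
    IsPt1 m N x (u * a + v * c) (u * b + v * d) := by
  rcases h with h | h
  · exact Or.inl ⟨h.1, dvd_add (hu.mul_right _) (h.2.mul_left _)⟩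
  · refine Or.inr ⟨h.1, ?_⟩
    have := dvd_add (hu.mul_right (b - a * ofN x)) (h.2.mul_left v)
    rwa [show u * (b - a * ofN x) + v * (d - c * ofN x) =
      u * b + v * d - (u * a + v * c) * ofN x by ring] at this

theorem add1 {k t : ℕ} {b : A} (ht : t < 2 ^ k) (hb : m ∣ b - ofN t)
    (h : IsPt1 m (2 ^ k) x c d) : IsPt1 m (2 ^ k) (ad (2 ^ k) t x) c (c * b + d) := by
  rcases h with h | h
  · exact Or.inl ⟨by rw [ad, if_pos h.1], h.2⟩
  · rw [ad, if_neg h.1.ne]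
    refine Or.inr ⟨Nat.xor_lt_two_pow h.1 ht, ?_⟩
    have := dvd_add h.2 (hb.mul_left c)
    rwa [show d - c * ofN x + c * (b - ofN t) = c * b + d - c * ofN (x ^^^ t) by
      rw [ofN_xor]; ring] at this

theorem congr1 (hd : m ∣ d' - d) (h : IsPt1 m N x c d) : IsPt1 m N x c d' := by
  rcases h with h | h
  · exact Or.inl h
  · refine Or.inr ⟨h.1, ?_⟩
    have := dvd_add hd h.2
    rwa [show d' - d + (d - c * ofN x) = d' - c * ofN x by ring] at this

theorem inv1 (hN : 0 < N) (h1 : x = N → x' = 0) (h2 : x = 0 → x' = N)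
    (h3 : 0 < x → x < N → x' < N ∧ m ∣ ofN x * ofN x' - ofN 1) (h : IsPt1 m N x c d) :
    IsPt1 m N x' d c := by
  rcases h with h | h
  · refine Or.inr ⟨h1 h.1 ▸ hN, ?_⟩
    rw [h1 h.1, ofN_zero, mul_zero, sub_zero]
    exact h.2
  · rcases Nat.eq_zero_or_pos x with h0 | h0
    · refine Or.inl ⟨h2 h0, ?_⟩
      have := h.2
      rwa [h0, ofN_zero, mul_zero, sub_zero] at this
    · refine Or.inr ⟨(h3 h0 h.1).1, ?_⟩
      have := dvd_add ((h3 h0 h.1).2.mul_left (-c)) (h.2.mul_left (-ofN x'))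
      rwa [show -c * (ofN x * ofN x' - ofN 1) + -ofN x' * (d - c * ofN x) = c - d * ofN x' by
        rw [ofN_one]; ring] at this

/-- a check of `a * b = e` modulo `n` -/
def ck (n a b e : ℕ) : Bool :=
  decide (b < 256) && (List.range 64).any fun r => clmul 8 a b == e ^^^ clmul 8 n r

theorem ck_dvd {n a b e : ℕ} (h : ck n a b e = true) : ofN n ∣ ofN a * ofN b - ofN e := by
  simp only [ck, Bool.and_eq_true, decide_eq_true_eq, List.any_eq_true, List.mem_range,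
    beq_iff_eq] at h
  obtain ⟨hb, r, hr, h⟩ := h
  have := congrArg ofN h
  rw [ofN_xor, ofN_clmul 8 a b hb, ofN_clmul 8 n r (by omega)] at this
  exact ⟨ofN r, by rw [this]; ring⟩

theorem tabT : ∀ k, k < 8 → tp k < 4 ∧ tq k < 64 ∧ ck 7 (2 ^ k) 1 (tp k) = true ∧
    ck 109 (2 ^ k) 1 (tq k) = true := by decide +kernel

theorem tabW : ∀ y, y < 64 → 0 < y → tab TW y < 64 ∧ ck 109 y (tab TW y) 1 = true := by
  decide +kernel

theorem tabW' : ∀ y, y < 4 → 0 < y → [4, 1, 3, 2, 0].getD y 0 < 4 ∧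
    ck 7 y ([4, 1, 3, 2, 0].getD y 0) 1 = true := by decide +kernel

theorem tabM : ∀ y, y < 64 → mp y < 64 ∧ dp y < 64 ∧ ck 109 7 y (mp y) = true ∧
    ck 109 7 (dp y) y = true := by decide +kernel

theorem tabE : tab TW 64 = 0 ∧ tab TW 0 = 64 ∧ mp 64 = 64 ∧ dp 64 = 64 := by decide +kernel

theorem cop (g : GL (Fin 2) A) : IsCoprime (g.1 1 0) (g.1 1 1) := by
  have := congrFun (congrFun g.mul_inv 1) 1
  rw [Matrix.mul_apply, Fin.sum_univ_two, Matrix.one_apply_eq] at this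
  exact ⟨(g⁻¹).1 0 1, (g⁻¹).1 1 1, by linear_combination this⟩

theorem exists_GL (h : IsCoprime c d) : ∃ g : GL (Fin 2) A, g.1 1 0 = c ∧ g.1 1 1 = d := by
  obtain ⟨u, v, e⟩ := h
  refine ⟨⟨!![v, -u; c, d], !![d, u; -c, v], ?_, ?_⟩, rfl, rfl⟩
  · refine Matrix.ext fun i j => ?_
    fin_cases i <;> fin_cases j <;> simp [Matrix.mul_apply, Fin.sum_univ_two] <;>
      first | ring1 | linear_combination e
  · refine Matrix.ext fun i j => ?_
    fin_cases i <;> fin_cases j <;> simp [Matrix.mul_apply, Fin.sum_univ_two] <;>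
      first | ring1 | linear_combination e

theorem mem_of {g g' : GL (Fin 2) A} (h : m ∣ g'.1 1 0 * g.1 1 1 - g'.1 1 1 * g.1 1 0) :
    g' * g⁻¹ ∈ Gam0 m := by
  show m ∣ (g' * g⁻¹).1 1 0
  rw [Units.val_mul, Matrix.coe_units_inv, Matrix.inv_def, Matrix.adjugate_fin_two]
  have := h.mul_left (Ring.inverse g.1.det)
  convert this using 1
  simp [Matrix.mul_apply, Fin.sum_univ_two]
  ring

theorem mul10 (γ g : GL (Fin 2) A) : (γ * g).1 1 0 = γ.1 1 0 * g.1 0 0 + γ.1 1 1 * g.1 1 0 := by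
  rw [Units.val_mul, Matrix.mul_apply, Fin.sum_univ_two]

theorem mul11 (γ g : GL (Fin 2) A) : (γ * g).1 1 1 = γ.1 1 0 * g.1 0 1 + γ.1 1 1 * g.1 1 1 := by
  rw [Units.val_mul, Matrix.mul_apply, Fin.sum_univ_two]

theorem U10 (g : GL (Fin 2) A) (b : A) : (g * UU b).1 1 0 = g.1 1 0 := by
  rw [mul10]; simp [UU]

theorem U11 (g : GL (Fin 2) A) (b : A) : (g * UU b).1 1 1 = g.1 1 0 * b + g.1 1 1 := by
  rw [mul11]; simp [UU]

theorem W10 (g : GL (Fin 2) A) : (g * WW).1 1 0 = g.1 1 1 := by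
  rw [mul10]; simp [WW]

theorem W11 (g : GL (Fin 2) A) : (g * WW).1 1 1 = g.1 1 0 := by
  rw [mul11]; simp [WW]

theorem UU_add (b b' : A) : UU (b + b') = UU b * UU b' := by
  ext i j : 2
  fin_cases i <;> fin_cases j <;> simp [UU, add_comm]

theorem UU_zero : UU 0 = 1 := by
  ext i j : 2
  fin_cases i <;> fin_cases j <;> simp [UU]

theorem ndvd (h : IRR) : ¬ qq ∣ pp := fun h1 => by
  have := natDegree_le_of_dvd h1 h.1.ne_zero
  rw [h.2.1, h.2.2.2] at this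
  omega

theorem copq (h : IRR) : IsCoprime pp qq := (h.2.2.1.coprime_iff_not_dvd.2 (ndvd h)).symm

theorem ex (h : IRR) (g : GL (Fin 2) A) : ∃ P, IsPt P g := by
  obtain ⟨x, hx⟩ := ex1 h.1 h.2.1 (g.1 1 0) (g.1 1 1)
  obtain ⟨y, hy⟩ := ex1 h.2.2.1 h.2.2.2 (g.1 1 0) (g.1 1 1)
  exact ⟨(x, y), hx, hy⟩

theorem uniq (h : IRR) (P P' : ℕ × ℕ) (g : GL (Fin 2) A) (h1 : IsPt P g) (h2 : IsPt P' g) :
    P = P' :=
  Prod.ext (uniq1 h.1 h.2.1 (cop g) h1.1 h2.1) (uniq1 h.2.2.1 h.2.2.2 (cop g) h1.2 h2.2)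

theorem actU (k : ℕ) (P : ℕ × ℕ) (g : GL (Fin 2) A) (hk : k ≤ 7) (h : IsPt P g) :
    IsPt (addT k P) (g * UU (X ^ k)) := by
  obtain ⟨h1, h2, h3, h4⟩ := tabT k (by omega)
  have h5 := ck_dvd h3
  have h6 := ck_dvd h4
  rw [ofN_two_pow, ofN_one, mul_one] at h5 h6
  rw [← pp_eq] at h5
  rw [← qq_eq] at h6
  unfold IsPt
  rw [U10, U11]
  exact ⟨add1 (k := 2) h1 h5 h.1, add1 (k := 6) h2 h6 h.2⟩

theorem surj (h : IRR) (P : ℕ × ℕ) (hP : Valid P) : ∃ g, IsPt P g := by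
  suffices ∃ c d, IsCoprime c d ∧ IsPt1 pp 4 P.1 c d ∧ IsPt1 qq 64 P.2 c d by
    obtain ⟨c, d, h1, h2⟩ := this
    obtain ⟨g, rfl, rfl⟩ := exists_GL h1
    exact ⟨g, h2⟩
  rcases hP.1.eq_or_lt with h1 | h1 <;> rcases hP.2.eq_or_lt with h2 | h2
  · exact ⟨0, 1, isCoprime_one_right, Or.inl ⟨h1, dvd_zero _⟩, Or.inl ⟨h2, dvd_zero _⟩⟩
  · exact ⟨pp, qq + pp * ofN P.2, (copq h).add_mul_left_right _, Or.inl ⟨h1, dvd_rfl⟩,
      Or.inr ⟨h2, by simp⟩⟩
  · exact ⟨qq, pp + qq * ofN P.1, (copq h).symm.add_mul_left_right _, Or.inr ⟨h1, by simp⟩,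
      Or.inl ⟨h2, dvd_rfl⟩⟩
  · obtain ⟨s, t, e⟩ := copq h
    exact ⟨1, ofN P.1 * t * qq + ofN P.2 * s * pp, isCoprime_one_left,
      Or.inr ⟨h1, s * (ofN P.2 - ofN P.1), by linear_combination ofN P.1 * e⟩,
      Or.inr ⟨h2, t * (ofN P.1 - ofN P.2), by linear_combination ofN P.2 * e⟩⟩

theorem gen0 (h : IRR) {β : Type} (F : ℕ × ℕ → β) (n : ℕ) (hn : n ≤ 8)
    (hF : ∀ k P, k < n → Valid P → F (addT k P) = F P) :
    ∀ b : A, b.degree < n → ∀ P P' g, IsPt P g → IsPt P' (g * UU b) → F P' = F P := by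
  induction n with
  | zero =>
    intro b hb P P' g h1 h2
    have : b = 0 := by simpa using hb
    rw [this, UU_zero, mul_one] at h2
    rw [uniq h _ _ _ h1 h2]
  | succ n ih =>
    intro b hb P P' g h1 h2
    replace ih := ih (by omega) fun k P hk => hF k P (by omega)
    rw [degree_lt_iff_coeff_zero] at hb
    have h3 : ∀ c : ZMod 2, c = 0 ∨ c = 1 := by decide
    rcases h3 (b.coeff n) with h4 | h4
    · refine ih b ((degree_lt_iff_coeff_zero _ _).2 fun j hj => ?_) P P' g h1 h2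
      rcases hj.eq_or_lt with rfl | hj
      · exact h4
      · exact hb j hj
    · obtain ⟨Q, hQ⟩ := ex h (g * UU (b - X ^ n))
      have h5 := actU n Q _ (by omega) hQ
      rw [mul_assoc, ← UU_add, sub_add_cancel] at h5
      rw [uniq h _ _ _ h2 h5, hF n Q (by omega) ⟨le1 hQ.1, le1 hQ.2⟩]
      refine ih _ ((degree_lt_iff_coeff_zero _ _).2 fun j hj => ?_) P Q g h1 hQ
      rw [coeff_sub, coeff_X_pow]
      rcases hj.eq_or_lt with rfl | hj
      · rw [h4, if_pos rfl, sub_self]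
      · rw [hb j hj, if_neg hj.ne', sub_self]

theorem divE (y u : ℕ) (c d z : A) : d - c * ofN u - pp * c * z =
    d - c * ofN y - c * (pp * z - ofN (y ^^^ u)) := by
  rw [ofN_xor]
  linear_combination -add_self_A (c * ofN u)

theorem pt (h : IRR) : PT where
  ex := ex h
  valid := fun _ _ h1 => ⟨le1 h1.1, le1 h1.2⟩
  uniq := uniq h
  orb := fun _ _ _ h1 h2 => mem_of ((copq h).mul_dvd (orb1 h1.1 h2.1) (orb1 h1.2 h2.2))
  orbq := fun _ _ _ h1 h2 => mem_of (orb1 h1 h2)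
  left := fun P g γ hγ h1 => by
    unfold IsPt
    rw [mul10, mul11]
    exact ⟨left1 (dvd_of_mul_right_dvd hγ) h1.1, left1 (dvd_of_mul_left_dvd hγ) h1.2⟩
  leftq := fun y g γ hγ h1 => by
    rw [mul10, mul11]
    exact left1 hγ h1
  surj := surj h
  actU := actU
  actW := fun P g h1 => by
    unfold IsPt
    rw [W10, W11]
    refine ⟨inv1 (by norm_num) (fun e => ?_) (fun e => ?_) (fun e e' => ?_) h1.1,
      inv1 (by norm_num) (fun e => ?_) (fun e => ?_) (fun e e' => ?_) h1.2⟩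
    · rw [wP, e]; rfl
    · rw [wP, e]; rfl
    · exact ⟨(tabW' _ e' e).1, pp_eq ▸ ck_dvd (tabW' _ e' e).2⟩
    · exact (congrArg (tab TW) e).trans tabE.1
    · exact (congrArg (tab TW) e).trans tabE.2.1
    · rw [qq_eq]
      exact ⟨(tabW _ e' e).1, ck_dvd (tabW _ e' e).2⟩
  gen := fun β F i b hF hi P P' g h1 h2 => by
    by_cases h7 : 7 ≤ i
    · obtain ⟨x, hx, hd⟩ := red (k := 8) (mul_ne_zero h.1.ne_zero h.2.2.1.ne_zero)
        (by rw [natDegree_mul h.1.ne_zero h.2.2.1.ne_zero, h.2.1, h.2.2.2]) b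
      refine gen0 h F 8 le_rfl (fun k P hk => hF k P (by omega) (by omega)) (ofN x)
        (degree_ofN_lt.2 hx) P P' g h1 ?_
      unfold IsPt at h2 ⊢
      rw [U10, U11] at h2 ⊢
      have h3 : pp * qq ∣ g.1 1 0 * ofN x + g.1 1 1 - (g.1 1 0 * b + g.1 1 1) := by
        have := hd.mul_left (-g.1 1 0)
        convert this using 1
        ring
      exact ⟨congr1 (dvd_of_mul_right_dvd h3) h2.1, congr1 (dvd_of_mul_left_dvd h3) h2.2⟩
    · refine gen0 h F (i + 1) (by omega) (fun k P hk => hF k P (by omega) (by omega)) b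
        (degree_le_natDegree.trans_lt ?_) P P' g h1 h2
      exact_mod_cast Nat.lt_succ_of_le (hi.resolve_left h7)
  mulp := fun y c d h1 => by
    rcases h1 with h1 | h1
    · exact Or.inl ⟨h1.1 ▸ tabE.2.2.1, h1.2⟩
    · obtain ⟨h2, -, h3, -⟩ := tabM y h1.1
      have h4 := ck_dvd h3
      rw [← pp_eq, ← qq_eq] at h4
      refine Or.inr ⟨h2, ?_⟩
      convert dvd_add (h1.2.mul_left pp) (h4.mul_left c) using 1
      ring
  mulp' := fun y c d h1 hy => by
    rcases hy.eq_or_lt with rfl | hy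
    · rw [tabE.2.2.1] at h1
      exact Or.inl ⟨rfl, (h1.resolve_right fun e => lt_irrefl _ e.1).2⟩
    · obtain ⟨h2, -, h3, -⟩ := tabM y hy
      have h4 := ck_dvd h3
      rw [← pp_eq, ← qq_eq] at h4
      refine Or.inr ⟨hy, (h.2.2.1.prime.dvd_or_dvd ?_).resolve_left (ndvd h)⟩
      convert dvd_sub (h1.resolve_left fun e => h2.ne e.1).2 (h4.mul_left c) using 1
      ring
  divp := fun y u c d hu h1 => by
    rcases h1 with h1 | h1
    · exact Or.inl ⟨by rw [ad, if_pos h1.1]; exact tabE.2.2.2, h1.2.mul_left _⟩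
    · rw [ad, if_neg h1.1.ne]
      obtain ⟨-, h2, -, h3⟩ := tabM (y ^^^ u) (Nat.xor_lt_two_pow (n := 6) h1.1 (by omega))
      have h4 := ck_dvd h3
      rw [← pp_eq, ← qq_eq] at h4
      refine Or.inr ⟨h2, ?_⟩
      rw [divE y]
      exact dvd_sub h1.2 (h4.mul_left c)
  divp' := fun y u c d hu hy h1 => by
    rcases hy.eq_or_lt with rfl | hy
    · rw [ad, if_pos rfl, tabE.2.2.2] at h1
      exact Or.inl ⟨rfl, (h.2.2.1.prime.dvd_or_dvd
        (h1.resolve_right fun e => lt_irrefl _ e.1).2).resolve_left (ndvd h)⟩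
    · rw [ad, if_neg hy.ne] at h1
      obtain ⟨-, h2, -, h3⟩ := tabM (y ^^^ u) (Nat.xor_lt_two_pow (n := 6) hy (by omega))
      have h4 := ck_dvd h3
      rw [← pp_eq, ← qq_eq] at h4
      have h5 := (h1.resolve_left fun e => h2.ne e.1).2
      rw [divE y] at h5
      exact Or.inr ⟨hy, by simpa using dvd_add h5 (h4.mul_left c)⟩

end Pool.Agent.MP_a88b1d_nt.H73
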